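import Mathlib

/-! Mediangle graphs, hyperplanes, monoliths; Cartesian products and Coxeter graphs. -/

namespace Pool.Agent.X50.MM

universe u v

/-- The interval `I(x,y)`. -/
def Ivl {V : Type u} (X : SimpleGraph V) (x y : V) : Set V :=
  {z | X.Reachable x z ∧ X.Reachable z y ∧ X.dist x y = X.dist x z + X.dist z y}

/-- Convex vertex sets. -/
def IsConvex {V : Type u} (X : SimpleGraph V) (S : Set V) : Prop :=
  ∀ x ∈ S, ∀ y ∈ S, Ivl X x y ⊆ S

/-- Gated vertex sets. -/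
def IsGated {V : Type u} (X : SimpleGraph V) (S : Set V) : Prop :=
  ∀ x, ∃ y ∈ S, ∀ z ∈ S, y ∈ Ivl X x z

/-- `c` is a convex (induced, interval closed) cycle of even length `2 n ≥ 4`. -/
def ConvCyc {V : Type u} (X : SimpleGraph V) (n : ℕ) (c : ZMod (2 * n) → V) : Prop :=
  2 ≤ n ∧ Function.Injective c ∧ (∀ i j, X.Adj (c i) (c j) ↔ (j = i + 1 ∨ i = j + 1)) ∧
    IsConvex X (Set.range c)

/-- Mediangle graphs. -/
structure Mediangle {V : Type u} (X : SimpleGraph V) : Prop where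
  conn : X.Connected
  tri : ∀ o x y, X.dist o x = X.dist o y → X.Adj x y →
    ∃ z, X.Adj x z ∧ X.Adj y z ∧ z ∈ Ivl X o x ∩ Ivl X o y
  diam : ∀ a b c d, X.Adj a b → X.Adj a c → X.Adj a d → X.Adj b c → X.Adj b d → c ≠ d →
    X.Adj c d
  cyc : ∀ o x y z, X.dist o x = X.dist o y → X.dist o z = X.dist o x + 1 → X.Adj x z → X.Adj y z →
    x ≠ y → ∃ (n : ℕ) (c : ZMod (2 * n) → V), ConvCyc X n c ∧ c 0 = z ∧ c 1 = x ∧ c (-1) = y ∧
      c n ∈ Ivl X o x ∩ Ivl X o y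
  meet : ∀ (n : ℕ) (c : ZMod (2 * n) → V) (m : ℕ) (c' : ZMod (2 * m) → V), ConvCyc X n c →
    ConvCyc X m c' → ∀ i j i' j', s(c i, c (i + 1)) = s(c' i', c' (i' + 1)) →
      s(c j, c (j + 1)) = s(c' j', c' (j' + 1)) → s(c i, c (i + 1)) ≠ s(c j, c (j + 1)) →
      Set.range c = Set.range c'

/-- The two rules generating the hyperplane relation on edges. -/
inductive HRule {V : Type u} (X : SimpleGraph V) : Sym2 V → Sym2 V → Prop
  | tri (x y z : V) : X.Adj x y → X.Adj y z → X.Adj x z → HRule X s(x, y) s(y, z)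
  | opp (n : ℕ) (c : ZMod (2 * n) → V) (i : ZMod (2 * n)) : ConvCyc X n c →
      HRule X s(c i, c (i + 1)) s(c (i + n), c (i + n + 1))

/-- `J` is a hyperplane of `X`: a class of edges. -/
def IsHyperplane {V : Type u} (X : SimpleGraph V) (J : Set (Sym2 V)) : Prop :=
  ∃ e ∈ X.edgeSet, J = {e' | e' ∈ X.edgeSet ∧ Relation.EqvGen (HRule X) e e'}

/-- Some edge of `J₁` and some edge of `J₂` are consecutive edges of a convex even cycle. -/
def Transverse {V : Type u} (X : SimpleGraph V) (J₁ J₂ : Set (Sym2 V)) : Prop :=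
  ∃ (n : ℕ) (c : ZMod (2 * n) → V) (i : ZMod (2 * n)), ConvCyc X n c ∧
    ((s(c i, c (i + 1)) ∈ J₁ ∧ s(c (i + 1), c (i + 2)) ∈ J₂) ∨
      (s(c i, c (i + 1)) ∈ J₂ ∧ s(c (i + 1), c (i + 2)) ∈ J₁))

/-- `Y` spans a monolith of `X`. -/
def Monolith {V : Type u} (X : SimpleGraph V) (Y : Set V) : Prop :=
  IsGated X Y ∧ ∀ J₁ J₂, IsHyperplane X J₁ → IsHyperplane X J₂ → J₁ ≠ J₂ →
    (∃ x ∈ Y, ∃ y ∈ Y, s(x, y) ∈ J₁) → (∃ x ∈ Y, ∃ y ∈ Y, s(x, y) ∈ J₂) → Transverse X J₁ J₂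

/-- The Cartesian product of a family of graphs. -/
def cart {ι : Type u} {V : ι → Type v} (G : ∀ i, SimpleGraph (V i)) : SimpleGraph (∀ i, V i) where
  Adj a b := ∃ i, (G i).Adj (a i) (b i) ∧ ∀ j, j ≠ i → a j = b j
  symm := ⟨by
    rintro a b ⟨i, h, h'⟩
    exact ⟨i, h.symm, fun j hj => (h' j hj).symm⟩⟩
  loopless := ⟨by
    rintro a ⟨i, h, _⟩
    exact (G i).loopless.irrefl _ h⟩

/-- The Coxeter graph: the Cayley graph of the Coxeter group for its standard generators. -/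
def cox {k : ℕ} (M : CoxeterMatrix (Fin k)) : SimpleGraph M.Group where
  Adj g h := ∃ i, h = g * M.toCoxeterSystem.simple i
  symm := ⟨by
    rintro g h ⟨i, rfl⟩
    exact ⟨i, by rw [CoxeterSystem.simple_mul_simple_cancel_right]⟩⟩
  loopless := ⟨by
    rintro g ⟨i, h⟩
    have h1 : M.toCoxeterSystem.simple i = 1 := by
      have := h.symm
      rwa [mul_eq_left] at this
    have h2 := M.toCoxeterSystem.length_simple i
    rw [h1, M.toCoxeterSystem.length_one] at h2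
    exact absurd h2 (by norm_num)⟩

/-- `G` is a complete graph or a finite Coxeter graph. -/
def Factor {V : Type v} (G : SimpleGraph V) : Prop :=
  G = ⊤ ∨ ∃ (k : ℕ) (M : CoxeterMatrix (Fin k)), Finite M.Group ∧ Nonempty (G ≃g cox M)

end Pool.Agent.X50.MM
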