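import Mathlib
import Pool.Agent.Helper376.LC.Cox

namespace Pool.Agent.X50.MM

open Pool.Agent.Helper376.LC

section grp
variable {B : Type*} {M : CoxeterMatrix B} {W : Type*} [Group W] (cs : CoxeterSystem M W)

open Classical in
theorem eta_snoc (w : W) (i : B) (t : W) :
    eta cs (w * cs.simple i) t = (if t = cs.simple i then 1 else 0) +
      eta cs w (cs.simple i * t * cs.simple i) := by
  rw [eta_mul, eta_simple, cs.inv_simple]

theorem two_letter {t a u b : B} (h : cs.simple t * cs.simple a = cs.simple u * cs.simple b)
    (htu : cs.simple t ≠ cs.simple u) (hat : cs.simple a ≠ cs.simple t) :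
    cs.simple a = cs.simple u ∧ cs.simple b = cs.simple t ∧
      cs.simple t * cs.simple u = cs.simple u * cs.simple t := by
  classical
  have hT := cs.simple_mul_simple_self t
  have hA := cs.simple_mul_simple_self a
  have hU := cs.simple_mul_simple_self u
  have hB := cs.simple_mul_simple_self b
  have key : ∀ r : W, (if r = cs.simple a then (1 : ZMod 2) else 0) +
      (if cs.simple a * r * cs.simple a = cs.simple t then 1 else 0) =
      (if r = cs.simple b then 1 else 0) +
      (if cs.simple b * r * cs.simple b = cs.simple u then 1 else 0) := by
    intro r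
    have h1 := eta_snoc cs (cs.simple t) a r
    have h2 := eta_snoc cs (cs.simple u) b r
    rw [eta_simple] at h1 h2
    rw [← h1, ← h2, h]
  generalize cs.simple t = T at *
  generalize cs.simple a = A at *
  generalize cs.simple u = U at *
  generalize cs.simple b = D at *
  have hAD : A ≠ D := by
    intro hh
    rw [hh] at h
    exact htu (mul_right_cancel h)
  have k1 := key A
  rw [if_pos rfl, show A * A * A = A by rw [hA, one_mul], if_neg hat, if_neg hAD] at k1
  have k1' : D * A * D = U := by
    by_contra hh
    rw [if_neg hh] at k1
    exact absurd k1 (by decide)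
  have hDT : D = T := by
    have : D * A = U * D := by
      rw [← k1', mul_assoc (D * A), hB, mul_one]
    rw [← h] at this
    exact mul_right_cancel this
  subst hDT
  have k2 := key D
  rw [if_neg (fun hh => hAD hh.symm), if_pos rfl, show D * D * D = D by rw [hB, one_mul],
    if_neg htu] at k2
  have k2' : A * D * A = D := by
    by_contra hh
    rw [if_neg hh] at k2
    exact absurd k2 (by decide)
  have hcom : A * D = D * A := by
    calc A * D = A * D * (A * A) := by rw [hA, mul_one]
      _ = (A * D * A) * A := by simp only [mul_assoc]
      _ = D * A := by rw [k2']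
  have hAU : A = U := by
    rw [← k1', ← hcom, mul_assoc, hB, mul_one]
  subst hAU
  exact ⟨rfl, rfl, hcom.symm⟩

/-- The hypotheses on a cyclic word of length six. -/
structure Hex (a b c d e f : B) : Prop where
  cl : cs.simple a * cs.simple b * cs.simple c * cs.simple d * cs.simple e * cs.simple f = 1
  nab : cs.simple a * cs.simple b ≠ cs.simple b * cs.simple a
  nbc : cs.simple b * cs.simple c ≠ cs.simple c * cs.simple b
  ncd : cs.simple c * cs.simple d ≠ cs.simple d * cs.simple c
  nde : cs.simple d * cs.simple e ≠ cs.simple e * cs.simple d
  nef : cs.simple e * cs.simple f ≠ cs.simple f * cs.simple e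
  nfa : cs.simple f * cs.simple a ≠ cs.simple a * cs.simple f
  sabc : ∀ i, cs.simple a * cs.simple b * cs.simple c ≠ cs.simple i
  sbcd : ∀ i, cs.simple b * cs.simple c * cs.simple d ≠ cs.simple i
  scde : ∀ i, cs.simple c * cs.simple d * cs.simple e ≠ cs.simple i
  sdef : ∀ i, cs.simple d * cs.simple e * cs.simple f ≠ cs.simple i
  sefa : ∀ i, cs.simple e * cs.simple f * cs.simple a ≠ cs.simple i
  sfab : ∀ i, cs.simple f * cs.simple a * cs.simple b ≠ cs.simple i

theorem Hex.rot {a b c d e f : B} (h : Hex cs a b c d e f) : Hex cs b c d e f a := by
  refine ⟨?_, h.nbc, h.ncd, h.nde, h.nef, h.nfa, h.nab, h.sbcd, h.scde, h.sdef, h.sefa, h.sfab,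
    h.sabc⟩
  have h1 := h.cl
  have hA := cs.simple_mul_simple_self a
  calc cs.simple b * cs.simple c * cs.simple d * cs.simple e * cs.simple f * cs.simple a
      = (cs.simple a * cs.simple a) * (cs.simple b * cs.simple c * cs.simple d * cs.simple e *
        cs.simple f * cs.simple a) := by rw [hA, one_mul]
    _ = cs.simple a * (cs.simple a * cs.simple b * cs.simple c * cs.simple d * cs.simple e *
        cs.simple f) * cs.simple a := by simp only [mul_assoc]
    _ = 1 := by rw [h1, mul_one, hA]

theorem Hex.wall {a b c d e f : B} (h : Hex cs a b c d e f) :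
    cs.simple d * cs.simple e * cs.simple f = cs.simple c * cs.simple d * cs.simple e := by
  classical
  have hA := cs.simple_mul_simple_self a
  have hB := cs.simple_mul_simple_self b
  have hC := cs.simple_mul_simple_self c
  have hD := cs.simple_mul_simple_self d
  have hE := cs.simple_mul_simple_self e
  have hF := cs.simple_mul_simple_self f
  have nef := h.nef
  have nfa := h.nfa
  have s1 := h.sdef e
  have s2 := h.sfab a
  have cl := h.cl
  have key : (0 : ZMod 2) = eta cs (cs.simple a * cs.simple b * cs.simple c * cs.simple d *
    cs.simple e * cs.simple f) (cs.simple f) := by rw [cl, eta_one]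
  rw [eta_snoc, eta_snoc, eta_snoc, eta_snoc, eta_snoc, eta_simple] at key
  generalize cs.simple a = A at *
  generalize cs.simple b = B' at *
  generalize cs.simple c = C at *
  generalize cs.simple d = D at *
  generalize cs.simple e = E at *
  generalize cs.simple f = F at *
  have t1 : F * F * F = F := by rw [hF, one_mul]
  rw [t1] at key
  have n1 : F ≠ E := fun hh => nef (by rw [hh])
  have n2 : E * F * E ≠ D := by
    intro hh
    apply s1
    rw [← hh]
    calc E * F * E * E * F = E * F * (E * E) * F := by simp only [mul_assoc]
      _ = E * (F * F) := by rw [hE, mul_one, mul_assoc]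
      _ = E := by rw [hF, mul_one]
  -- inverse forms
  have hcl2 : C * D * E * F = B' * A := by
    calc C * D * E * F = (B' * (A * A) * B') * (C * D * E * F) := by
          rw [hA, mul_one, hB, one_mul]
      _ = B' * A * (A * B' * C * D * E * F) := by simp only [mul_assoc]
      _ = B' * A := by rw [cl, mul_one]
  have hEDC : E * D * C = F * A * B' := by
    have e1 : C * D * E = B' * A * F := by
      calc C * D * E = C * D * E * (F * F) := by rw [hF, mul_one]
        _ = (C * D * E * F) * F := by simp only [mul_assoc]
        _ = B' * A * F := by rw [hcl2]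
    calc E * D * C = E * D * C * ((B' * A * F) * (F * A * B')) := by
          rw [show B' * A * F * (F * A * B') = B' * (A * (F * F) * A) * B' by
            simp only [mul_assoc], hF, mul_one, hA, mul_one, hB, mul_one]
      _ = E * D * C * ((C * D * E) * (F * A * B')) := by rw [e1]
      _ = E * (D * (C * C) * D) * E * (F * A * B') := by simp only [mul_assoc]
      _ = F * A * B' := by rw [hC, mul_one, hD, mul_one, hE, one_mul]
  have t4 : C * (D * (E * F * E) * D) * C = B' * A * (F * A * B') := by
    calc C * (D * (E * F * E) * D) * C = (C * D * E * F) * (E * D * C) := by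
          simp only [mul_assoc]
      _ = B' * A * (F * A * B') := by rw [hcl2, hEDC]
  have n4 : C * (D * (E * F * E) * D) * C ≠ B' := by
    rw [t4]
    intro hh
    apply s2
    have h5 : A * F * A * B' = 1 := by
      calc A * F * A * B' = (B' * B') * (A * F * A * B') := by rw [hB, one_mul]
        _ = B' * (B' * A * (F * A * B')) := by simp only [mul_assoc]
        _ = 1 := by rw [hh, hB]
    calc F * A * B' = (A * A) * (F * A * B') := by rw [hA, one_mul]
      _ = A * (A * F * A * B') := by simp only [mul_assoc]
      _ = A := by rw [h5, mul_one]
  have n5 : B' * (C * (D * (E * F * E) * D) * C) * B' ≠ A := by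
    rw [t4]
    intro hh
    apply nfa
    have h5 : B' * (B' * A * (F * A * B')) * B' = A * F * A := by
      calc B' * (B' * A * (F * A * B')) * B' = (B' * B') * (A * F * A) * (B' * B') := by
            simp only [mul_assoc]
        _ = A * F * A := by rw [hB, one_mul, mul_one]
    rw [h5] at hh
    have h6 : F * A = 1 := by
      calc F * A = (A * A) * (F * A) := by rw [hA, one_mul]
        _ = A * (A * F * A) := by simp only [mul_assoc]
        _ = 1 := by rw [hh, hA]
    have h7 : F = A := by
      calc F = F * (A * A) := by rw [hA, mul_one]
        _ = (F * A) * A := by rw [mul_assoc]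
        _ = A := by rw [h6, one_mul]
    rw [h7]
  rw [if_pos rfl, if_neg n1, if_neg n2, if_neg n4, if_neg n5] at key
  have t3 : D * (E * F * E) * D = C := by
    by_contra hh
    rw [if_neg hh] at key
    exact absurd key (by decide)
  calc D * E * F = D * E * F * ((E * D) * (D * E)) := by
        rw [show E * D * (D * E) = E * (D * D) * E by simp only [mul_assoc], hD, mul_one, hE,
          mul_one]
    _ = (D * (E * F * E) * D) * (D * E) := by simp only [mul_assoc]
    _ = C * D * E := by rw [t3]; simp only [mul_assoc]

theorem Hex.step {a b c d e f : B} (h : Hex cs a b c d e f) :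
    cs.simple e = cs.simple a ∧ cs.simple d = cs.simple b := by
  have hw := h.wall
  have hA := cs.simple_mul_simple_self a
  have hB := cs.simple_mul_simple_self b
  have hC := cs.simple_mul_simple_self c
  have hD := cs.simple_mul_simple_self d
  have hE := cs.simple_mul_simple_self e
  have hcl := h.cl
  have h1 : cs.simple a * cs.simple b = cs.simple e * cs.simple d := by
    have h2 : cs.simple a * cs.simple b * cs.simple d * cs.simple e = 1 := by
      calc cs.simple a * cs.simple b * cs.simple d * cs.simple e
          = cs.simple a * cs.simple b * (cs.simple c * cs.simple c) * cs.simple d * cs.simple e := by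
            rw [hC, mul_one]
        _ = cs.simple a * cs.simple b * cs.simple c *
            (cs.simple c * cs.simple d * cs.simple e) := by simp only [mul_assoc]
        _ = cs.simple a * cs.simple b * cs.simple c * (cs.simple d * cs.simple e * cs.simple f) := by
            rw [hw]
        _ = 1 := by rw [← hcl]; simp only [mul_assoc]
    calc cs.simple a * cs.simple b = cs.simple a * cs.simple b *
          (cs.simple d * (cs.simple e * cs.simple e) * cs.simple d) := by rw [hE, mul_one, hD, mul_one]
      _ = (cs.simple a * cs.simple b * cs.simple d * cs.simple e) * (cs.simple e * cs.simple d) := by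
          simp only [mul_assoc]
      _ = cs.simple e * cs.simple d := by rw [h2, one_mul]
  by_cases hae : cs.simple a = cs.simple e
  · refine ⟨hae.symm, ?_⟩
    rw [hae] at h1
    exact (mul_left_cancel h1).symm
  · exfalso
    have hba : cs.simple b ≠ cs.simple a := fun hh => h.nab (by rw [hh])
    obtain ⟨k1, _, k3⟩ := two_letter cs h1 hae hba
    rw [← k1] at k3
    exact h.nab k3

theorem Hex.all {a b c d e f : B} (h : Hex cs a b c d e f) :
    cs.simple c = cs.simple a ∧ cs.simple e = cs.simple a ∧ cs.simple d = cs.simple b ∧
      cs.simple f = cs.simple b := by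
  have h1 := h.step
  have h2 := h.rot.step
  have h3 := h.rot.rot.step
  exact ⟨h3.1.symm ▸ (by rw [← h3.1]), h1.1, h1.2, h2.1⟩

theorem Hex.cube {a b c d e f : B} (h : Hex cs a b c d e f) :
    cs.simple a * cs.simple b * cs.simple a * cs.simple b * cs.simple a * cs.simple b = 1 := by
  obtain ⟨h1, h2, h3, h4⟩ := h.all
  have h5 := h.cl
  rw [h1, h2, h3, h4] at h5
  exact h5

theorem final_contra {t u : B} (h3 : cs.simple t * cs.simple u * cs.simple t * cs.simple u *
      cs.simple t * cs.simple u = 1) (h2 : cs.simple t * cs.simple u = cs.simple u * cs.simple t) :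
    cs.simple t = cs.simple u := by
  have hT := cs.simple_mul_simple_self t
  have hU := cs.simple_mul_simple_self u
  generalize cs.simple t = T at *
  generalize cs.simple u = U at *
  have h4 : T * U * T * U = 1 := by
    calc T * U * T * U = T * U * (T * U) := by simp only [mul_assoc]
      _ = T * U * (U * T) := by rw [h2]
      _ = T * (U * U) * T := by simp only [mul_assoc]
      _ = 1 := by rw [hU, mul_one, hT]
  rw [h4, one_mul] at h3
  calc T = T * (U * U) := by rw [hU, mul_one]
    _ = (T * U) * U := by rw [mul_assoc]
    _ = U := by rw [h3, one_mul]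

end grp

end Pool.Agent.X50.MM
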