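import Mathlib
import Pool.Agent.X50.MM.Def
import Pool.Agent.X50.MM.Grp

namespace Pool.Agent.X50.MM
universe u v w
variable {U : Type w} {X : SimpleGraph U} {ι : Type u} {V : ι → Type v} {G : ∀ i, SimpleGraph (V i)}

/-- Adjacency along coordinate `i`. -/
def Co (G : ∀ i, SimpleGraph (V i)) (a b : ∀ i, V i) (i : ι) : Prop :=
  (G i).Adj (a i) (b i) ∧ ∀ j, j ≠ i → a j = b j

theorem Co.adj {a b : ∀ i, V i} {i : ι} (h : Co G a b i) : (cart G).Adj a b := ⟨i, h⟩

theorem Co.symm {a b : ∀ i, V i} {i : ι} (h : Co G a b i) : Co G b a i :=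
  ⟨h.1.symm, fun j hj => (h.2 j hj).symm⟩

structure Emb (X : SimpleGraph U) (G : ∀ i, SimpleGraph (V i)) (f : U → ∀ i, V i) : Prop where
  inj : Function.Injective f
  adj : ∀ x y, X.Adj x y ↔ (cart G).Adj (f x) (f y)
  conv : ∀ x y w, x ≠ y → ¬ X.Adj x y → (cart G).Adj (f x) w → (cart G).Adj w (f y) →
    ∃ w', f w' = w

theorem dist_two {P : Type*} (K : SimpleGraph P) {a b w : P} (hab : a ≠ b) (hn : ¬ K.Adj a b)
    (h1 : K.Adj a w) (h2 : K.Adj w b) : w ∈ Ivl K a b := by
  refine ⟨h1.reachable, h2.reachable, ?_⟩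
  rw [SimpleGraph.dist_eq_one_iff_adj.mpr h1, SimpleGraph.dist_eq_one_iff_adj.mpr h2]
  have h3 : K.dist a b ≤ 2 :=
    SimpleGraph.dist_le (SimpleGraph.Walk.cons h1 (SimpleGraph.Walk.cons h2 SimpleGraph.Walk.nil))
  have h4 : K.dist a b ≠ 0 := by
    intro h
    exact hab ((h1.reachable.trans h2.reachable).dist_eq_zero_iff.mp h)
  have h5 : K.dist a b ≠ 1 := fun h => hn (SimpleGraph.dist_eq_one_iff_adj.mp h)
  omega

theorem emb_of_iso {S : Set (∀ i, V i)} (hS : IsConvex (cart G) S)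
    (φ : X ≃g (cart G).induce S) : Emb X G (fun x => (φ x).1) := by
  have hinj : Function.Injective (fun x => (φ x).1) := Subtype.val_injective.comp φ.injective
  refine ⟨hinj, fun x y => ?_, fun x y w hxy hn h1 h2 => ?_⟩
  · exact (φ.map_adj_iff (v := x) (w := y)).symm
  · have hw : w ∈ S := by
      refine hS _ (φ x).2 _ (φ y).2 (dist_two _ (fun h => hxy (hinj h)) (fun h => hn ?_) h1 h2)
      exact (φ.map_adj_iff (v := x) (w := y)).mp h
    exact ⟨φ.symm ⟨w, hw⟩, by simp⟩

/-- `z` is the only common neighbour of the non-adjacent vertices `u ≠ u'`. -/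
def UCN (X : SimpleGraph U) (u z u' : U) : Prop :=
  X.Adj u z ∧ X.Adj z u' ∧ u ≠ u' ∧ ¬ X.Adj u u' ∧ ∀ w, X.Adj u w → X.Adj w u' → w = z

variable {f : U → ∀ i, V i}

theorem co_next (E : Emb X G f) {u z u' : U} (Q : UCN X u z u') {i : ι}
    (h : Co G (f u) (f z) i) : Co G (f z) (f u') i := by
  classical
  obtain ⟨h1, h2, h3, h4, h5⟩ := Q
  obtain ⟨j, hj⟩ := (E.adj _ _).mp h2
  have hj' : Co G (f z) (f u') j := hj
  by_cases hij : i = j
  · rw [hij]; exact hj'
  exfalso
  have hwu : (cart G).Adj (f u) (Function.update (f u) j (f u' j)) := by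
    refine ⟨j, ?_, fun k hk => ?_⟩
    · rw [Function.update_self, h.2 j (fun hh => hij hh.symm)]
      exact hj'.1
    · rw [Function.update_of_ne hk]
  have hwu' : (cart G).Adj (Function.update (f u) j (f u' j)) (f u') := by
    refine ⟨i, ?_, fun k hk => ?_⟩
    · rw [Function.update_of_ne hij, ← hj'.2 i hij]
      exact h.1
    · by_cases hkj : k = j
      · subst hkj
        rw [Function.update_self]
      · rw [Function.update_of_ne hkj, h.2 k hk, hj'.2 k hkj]
  obtain ⟨w', hw'⟩ := E.conv u u' _ h3 h4 hwu hwu'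
  rw [← hw'] at hwu hwu'
  have hz := h5 w' ((E.adj _ _).mpr hwu) ((E.adj _ _).mpr hwu')
  rw [hz] at hw'
  have h6 : f z i = f u i := by
    rw [hw', Function.update_of_ne hij]
  have h7 := h.1
  rw [h6] at h7
  exact (G i).loopless.irrefl _ h7

theorem not_top (E : Emb X G f) {u z u' : U} (Q : UCN X u z u') {i : ι}
    (h : Co G (f u) (f z) i) : G i ≠ ⊤ := by
  have h' := co_next E Q h
  obtain ⟨h1, h2, h3, h4, h5⟩ := Q
  intro hG
  have hag : ∀ j, j ≠ i → f u j = f u' j := fun j hj => (h.2 j hj).trans (h'.2 j hj)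
  by_cases hi : f u i = f u' i
  · apply h3
    apply E.inj
    funext j
    by_cases hj : j = i
    · rw [hj]; exact hi
    · exact hag j hj
  · apply h4
    rw [E.adj]
    refine ⟨i, ?_, hag⟩
    rw [hG]
    exact hi

variable {k : ℕ} {M : CoxeterMatrix (Fin k)} {i : ι}

theorem lab (e : G i ≃g cox M) {x y : U} (h : Co G (f x) (f y) i) :
    ∃ s, e (f y i) = e (f x i) * M.toCoxeterSystem.simple s := by
  have h1 : (cox M).Adj (e (f x i)) (e (f y i)) := e.map_adj_iff.mpr h.1
  exact h1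

theorem nc (E : Emb X G f) (e : G i ≃g cox M) {u z u' : U} (Q : UCN X u z u')
    (h : Co G (f u) (f z) i) {a b : Fin k}
    (ha : e (f z i) = e (f u i) * M.toCoxeterSystem.simple a)
    (hb : e (f u' i) = e (f z i) * M.toCoxeterSystem.simple b) :
    M.toCoxeterSystem.simple a * M.toCoxeterSystem.simple b ≠
      M.toCoxeterSystem.simple b * M.toCoxeterSystem.simple a := by
  classical
  have h' := co_next E Q h
  obtain ⟨h1, h2, h3, h4, h5⟩ := Q
  intro hcom
  have hag : ∀ j, j ≠ i → f u j = f u' j := fun j hj => (h.2 j hj).trans (h'.2 j hj)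
  set g : M.Group := e (f u i) * M.toCoxeterSystem.simple b with hg
  have hwu : (cart G).Adj (f u) (Function.update (f u) i (e.symm g)) := by
    refine ⟨i, ?_, fun k hk => ?_⟩
    · rw [Function.update_self, ← e.map_adj_iff]
      exact ⟨b, by simp [hg]⟩
    · rw [Function.update_of_ne hk]
  have hwu' : (cart G).Adj (Function.update (f u) i (e.symm g)) (f u') := by
    refine ⟨i, ?_, fun k hk => ?_⟩
    · rw [Function.update_self, ← e.map_adj_iff]
      refine ⟨a, ?_⟩
      rw [hb, ha, show e (e.symm g) = g from e.apply_symm_apply g, hg, mul_assoc, hcom, mul_assoc]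
    · rw [Function.update_of_ne hk]
      exact hag k hk
  obtain ⟨w', hw'⟩ := E.conv u u' _ h3 h4 hwu hwu'
  rw [← hw'] at hwu hwu'
  have hz := h5 w' ((E.adj _ _).mpr hwu) ((E.adj _ _).mpr hwu')
  rw [hz] at hw'
  have h6 : e (f z i) = g := by
    rw [hw', Function.update_self]
    simp
  rw [ha, hg] at h6
  have h7 := mul_left_cancel h6
  apply h3
  apply E.inj
  funext j
  by_cases hj : j = i
  · subst hj
    apply e.injective
    rw [hb, ha, h7, CoxeterSystem.simple_mul_simple_cancel_right]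
  · exact hag j hj

theorem ns (E : Emb X G f) (e : G i ≃g cox M) {x y : U} (hn : ¬ X.Adj x y)
    (hag : ∀ j, j ≠ i → f x j = f y j) (s : Fin k) :
    e (f y i) ≠ e (f x i) * M.toCoxeterSystem.simple s := by
  intro h
  apply hn
  rw [E.adj]
  refine ⟨i, ?_, hag⟩
  rw [← e.map_adj_iff]
  exact ⟨s, h⟩

/-- A hexagon of `X` with the local properties used below. -/
structure Hexagon (X : SimpleGraph U) (h0 h1 h2 h3 h4 h5 : U) : Prop where
  q1 : UCN X h0 h1 h2
  q2 : UCN X h1 h2 h3
  q3 : UCN X h2 h3 h4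
  q4 : UCN X h3 h4 h5
  q5 : UCN X h4 h5 h0
  q0 : UCN X h5 h0 h1
  n0 : ¬ X.Adj h0 h3
  n1 : ¬ X.Adj h1 h4
  n2 : ¬ X.Adj h2 h5

theorem hexagon (E : Emb X G f) (e : G i ≃g cox M) {h0 h1 h2 h3 h4 h5 : U}
    (H : Hexagon X h0 h1 h2 h3 h4 h5) (h : Co G (f h0) (f h1) i) :
    ∃ s t : Fin k, Co G (f h1) (f h2) i ∧ Co G (f h0) (f h5) i ∧
      e (f h1 i) = e (f h0 i) * M.toCoxeterSystem.simple s ∧
      e (f h2 i) = e (f h1 i) * M.toCoxeterSystem.simple t ∧
      e (f h5 i) = e (f h0 i) * M.toCoxeterSystem.simple t ∧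
      M.toCoxeterSystem.simple s * M.toCoxeterSystem.simple t * M.toCoxeterSystem.simple s *
        M.toCoxeterSystem.simple t * M.toCoxeterSystem.simple s * M.toCoxeterSystem.simple t = 1 := by
  have c1 := h
  have c2 := co_next E H.q1 c1
  have c3 := co_next E H.q2 c2
  have c4 := co_next E H.q3 c3
  have c5 := co_next E H.q4 c4
  have c6 := co_next E H.q5 c5
  obtain ⟨a, ha⟩ := lab e c1
  obtain ⟨b, hb⟩ := lab e c2
  obtain ⟨c, hc⟩ := lab e c3
  obtain ⟨d, hd⟩ := lab e c4
  obtain ⟨e', he⟩ := lab e c5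
  obtain ⟨f', hf⟩ := lab e c6
  have g14 : ∀ j, j ≠ i → f h0 j = f h3 j := fun j hj =>
    ((c1.2 j hj).trans (c2.2 j hj)).trans (c3.2 j hj)
  have g25 : ∀ j, j ≠ i → f h1 j = f h4 j := fun j hj =>
    ((c2.2 j hj).trans (c3.2 j hj)).trans (c4.2 j hj)
  have g36 : ∀ j, j ≠ i → f h2 j = f h5 j := fun j hj =>
    ((c3.2 j hj).trans (c4.2 j hj)).trans (c5.2 j hj)
  have HX : Hex M.toCoxeterSystem a b c d e' f' := by
    refine ⟨?_, nc E e H.q1 c1 ha hb, nc E e H.q2 c2 hb hc, nc E e H.q3 c3 hc hd,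
      nc E e H.q4 c4 hd he, nc E e H.q5 c5 he hf, nc E e H.q0 c6 hf ha, ?_, ?_, ?_, ?_, ?_, ?_⟩
    · have h6 := hf
      rw [he, hd, hc, hb, ha] at h6
      have h7 : e (f h0 i) * (M.toCoxeterSystem.simple a * M.toCoxeterSystem.simple b *
          M.toCoxeterSystem.simple c * M.toCoxeterSystem.simple d * M.toCoxeterSystem.simple e' *
          M.toCoxeterSystem.simple f') = e (f h0 i) := by
        simp only [mul_assoc] at h6 ⊢
        exact h6.symm
      rwa [mul_eq_left] at h7
    · intro s hs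
      apply ns E e H.n0 g14 s
      rw [hc, hb, ha, ← hs]
      simp only [mul_assoc]
    · intro s hs
      apply ns E e H.n1 g25 s
      rw [hd, hc, hb, ← hs]
      simp only [mul_assoc]
    · intro s hs
      apply ns E e H.n2 g36 s
      rw [he, hd, hc, ← hs]
      simp only [mul_assoc]
    · intro s hs
      apply ns E e (fun hh => H.n0 hh.symm) (fun j hj => (g14 j hj).symm) s
      rw [hf, he, hd, ← hs]
      simp only [mul_assoc]
    · intro s hs
      apply ns E e (fun hh => H.n1 hh.symm) (fun j hj => (g25 j hj).symm) s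
      rw [ha, hf, he, ← hs]
      simp only [mul_assoc]
    · intro s hs
      apply ns E e (fun hh => H.n2 hh.symm) (fun j hj => (g36 j hj).symm) s
      rw [hb, ha, hf, ← hs]
      simp only [mul_assoc]
  obtain ⟨k1, k2, k3, k4⟩ := HX.all
  refine ⟨a, b, c2, c6.symm, ha, hb, ?_, HX.cube⟩
  rw [hf, k4, CoxeterSystem.simple_mul_simple_cancel_right]

theorem eq_of_coord (E : Emb X G f) {x y : U} (hag : ∀ j, j ≠ i → f x j = f y j)
    (h : f x i = f y i) : x = y := by
  apply E.inj
  funext j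
  by_cases hj : j = i
  · rw [hj]; exact h
  · exact hag j hj

theorem no_emb (E : Emb X G f) (hG : ∀ i, Factor (G i))
    {v x1 x2 x3 p p' p'' q q' q'' r r' r'' w : U}
    (H12 : Hexagon X v x1 p p' p'' x2) (H13 : Hexagon X v x1 q q' q'' x3)
    (H23 : Hexagon X v x2 r r' r'' x3) (hpw : X.Adj p w) (hqw : X.Adj q w) (hw : w ≠ x1)
    (hpq : p ≠ q) : False := by
  obtain ⟨i, hi⟩ := (E.adj _ _).mp H12.q1.1
  have c : Co G (f v) (f x1) i := hi
  obtain ⟨k, M, _, ⟨e⟩⟩ := (hG i).resolve_left (not_top E H12.q1 c)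
  obtain ⟨s, t, cp, cx2, l1, l2, l3, -⟩ := hexagon E e H12 c
  obtain ⟨s', u, cq, cx3, m1, m2, m3, -⟩ := hexagon E e H13 c
  obtain ⟨t', u', -, -, n1, -, n3, cube⟩ := hexagon E e H23 cx2
  have ht : M.toCoxeterSystem.simple t' = M.toCoxeterSystem.simple t := by
    rw [l3] at n1
    exact (mul_left_cancel n1).symm
  have hu : M.toCoxeterSystem.simple u' = M.toCoxeterSystem.simple u := by
    rw [m3] at n3
    exact (mul_left_cancel n3).symm
  rw [ht, hu] at cube
  have hag : ∀ j, j ≠ i → f p j = f q j := fun j hj => (cp.2 j hj).symm.trans (cq.2 j hj)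
  have htu : M.toCoxeterSystem.simple t ≠ M.toCoxeterSystem.simple u := by
    intro hh
    apply hpq
    apply eq_of_coord E hag
    apply e.injective
    rw [l2, m2, hh]
  obtain ⟨j, hj⟩ := (E.adj _ _).mp hpw
  have cj : Co G (f p) (f w) j := hj
  obtain ⟨l, hl⟩ := (E.adj _ _).mp hqw
  have cl : Co G (f q) (f w) l := hl
  have hji : j = i := by
    by_contra hne
    have h1 : f w j ≠ f q j := by
      intro hh
      have h2 := cj.1
      rw [hh, hag j hne] at h2
      exact (G j).loopless.irrefl _ h2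
    have hlj : l = j := by
      by_contra hne'
      exact h1 (cl.2 j (fun hh => hne' hh.symm)).symm
    subst hlj
    apply hpq
    apply eq_of_coord E hag
    rw [cj.2 i (fun hh => hne hh.symm), cl.2 i (fun hh => hne hh.symm)]
  subst hji
  have hlj : l = j := by
    by_contra hne
    have h2 := cl.1
    rw [← cj.2 l hne, hag l hne] at h2
    exact (G l).loopless.irrefl _ h2
  subst hlj
  obtain ⟨a, ha⟩ := lab e cj
  obtain ⟨b, hb⟩ := lab e cl
  have hat : M.toCoxeterSystem.simple a ≠ M.toCoxeterSystem.simple t := by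
    intro hh
    apply hw
    apply eq_of_coord E (i := l)
    · intro j hj
      rw [← cj.2 j hj, ← cp.2 j hj]
    · apply e.injective
      rw [ha, l2, hh, CoxeterSystem.simple_mul_simple_cancel_right]
  have h2l : M.toCoxeterSystem.simple t * M.toCoxeterSystem.simple a =
      M.toCoxeterSystem.simple u * M.toCoxeterSystem.simple b := by
    rw [ha, l2, m2, mul_assoc, mul_assoc] at hb
    exact mul_left_cancel hb
  obtain ⟨-, -, hcom⟩ := two_letter M.toCoxeterSystem h2l htu hat
  exact htu (final_contra M.toCoxeterSystem cube hcom)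

end Pool.Agent.X50.MM
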