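import Mathlib
import Pool.Agent.X50.MM.Def

/-! The tope graph of the simplicial arrangement `A(7,1)` and its tables. -/

namespace Pool.Agent.X50.MM

def DT : ℕ := 4624713228552974861897241891809575516126438308110797243286025879294504233313084472503323035934883319482425494357184652072384229173629646453541968348694469170939154648401972195252760928069970112189131389229829586682504772717103006975557032313371154976801868056870057533485821903551870766740832193100324247932431308310907254225433555248002752501604963866785189966664861313235134397410030252025559041289771875836148374642043488739400345976297709285624114776296048122992914346202864950797779748489811537612555596045724217145233624257382645247870493069888856942458540618625621201063390201846199131334533866054836313032348483964082663161068940970918859235198013178922195859712369251661834838206293649409917466559523537142770913767999718953811187170201442602596422536582522077453547325261429878918488614861135308164439252939175516578212121987479846912161885131901964360936854112123553394205375122081383819526305258194669925683915936505095353786834649489951058202877074102075921251548376215170863697614033933208350400790909216973730289127705590604925475078386082925257694608487332660113513491495125910192775868606181644666793095562801039193452157632517779275011335974568522207506139922761621249186180839951170647946497207943544360556241424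
def CT : ℕ := 26933398227779010395606275305462234846528837284330013359680673564672
def ST : ℕ := 1244726121726621895517214209527091265
def HT : ℕ := 2199451219911646061189482658022356985878025596495812598568870880869001308363571082610486920873236099694430240
def ET : ℕ := 3072131337009277134142007820787201335634753849865161003997253440537556687186547326031719294780724046391648360328867049709602164198205075181770817
def PT : ℕ := 355105581728671681254833883421357784429640082782857047542617273843024863829418945282048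
def RT : ℕ := 331548824272501856143832205954485962329324880732355779798859945841024396433043415367680

/-- The distance table. -/
def dN (x y : Fin 32) : ℕ := (DT >>> (128 * x.val + 4 * y.val)) % 16

/-- The sign vector of a chamber, as a 7-bit number. -/
def cd (x : Fin 32) : ℕ := (CT >>> (7 * x.val)) % 128

/-- The squares. -/
def SQ (k : Fin 6) (a : ZMod (2 * 2)) : Fin 32 :=
  ⟨(ST >>> (20 * k.val + 5 * a.val)) % 32, Nat.mod_lt _ (by norm_num)⟩

/-- The hexagons. -/
def HX (k : Fin 12) (a : ZMod (2 * 3)) : Fin 32 :=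
  ⟨(HT >>> (30 * k.val + 5 * a.val)) % 32, Nat.mod_lt _ (by norm_num)⟩

def Ea (j : Fin 48) : Fin 32 := ⟨(ET >>> (10 * j.val)) % 32, Nat.mod_lt _ (by norm_num)⟩
def Eb (j : Fin 48) : Fin 32 := ⟨(ET >>> (10 * j.val + 5)) % 32, Nat.mod_lt _ (by norm_num)⟩
def Pa (j : Fin 48) : ℕ := (PT >>> (6 * j.val)) % 64
def Ra (j : Fin 48) : ℕ := (RT >>> (6 * j.val)) % 64

theorem d_self : ∀ x, dN x x = 0 := by decide +kernel
theorem d_zero : ∀ x y, dN x y = 0 → x = y := by decide +kernel
theorem d_symm : ∀ x y, dN x y = dN y x := by decide +kernel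
theorem d_par : ∀ x y, dN x y = 1 → ∀ z, dN x z = dN y z + 1 ∨ dN y z = dN x z + 1 := by decide +kernel
theorem d_step : ∀ x z, dN x z ≠ 0 → ∃ y, dN x y = 1 ∧ dN x z = dN y z + 1 := by decide +kernel

/-- The graph. -/
def X7 : SimpleGraph (Fin 32) where
  Adj x y := dN x y = 1
  symm := ⟨fun x y h => by rw [d_symm]; exact h⟩
  loopless := ⟨fun x h => by rw [d_self] at h; exact absurd h (by norm_num)⟩

instance : DecidableRel X7.Adj := fun x y => inferInstanceAs (Decidable (dN x y = 1))

theorem X7_adj {x y : Fin 32} : X7.Adj x y ↔ dN x y = 1 := Iff.rfl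

theorem sq_adj : ∀ k a b, dN (SQ k a) (SQ k b) = 1 ↔ (b = a + 1 ∨ a = b + 1) := by decide +kernel
theorem hx_adj : ∀ k a b, dN (HX k a) (HX k b) = 1 ↔ (b = a + 1 ∨ a = b + 1) := by decide +kernel
theorem sq_inj : ∀ k a b, SQ k a = SQ k b → a = b := by decide +kernel
theorem hx_inj : ∀ k a b, HX k a = HX k b → a = b := by decide +kernel
theorem sq_conv : ∀ k a b z, dN (SQ k a) (SQ k b) = dN (SQ k a) z + dN z (SQ k b) →
    ∃ c, SQ k c = z := by decide +kernel
theorem hx_conv : ∀ k a b z, dN (HX k a) (HX k b) = dN (HX k a) z + dN z (HX k b) →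
    ∃ c, HX k c = z := by decide +kernel
theorem sq_opp : ∀ k a b, dN (SQ k a) (SQ k (a + 2)) = dN (SQ k a) (SQ k b) +
    dN (SQ k b) (SQ k (a + 2)) := by decide +kernel
theorem hx_opp : ∀ k a b, dN (HX k a) (HX k (a + 3)) = dN (HX k a) (HX k b) +
    dN (HX k b) (HX k (a + 3)) := by decide +kernel
theorem faces : ∀ z x, dN z x = 1 → ∀ y, dN z y = 1 → x ≠ y →
    (∃ k a, SQ k a = z ∧ ((SQ k (a + 1) = x ∧ SQ k (a - 1) = y) ∨
      (SQ k (a - 1) = x ∧ SQ k (a + 1) = y))) ∨
    (∃ k a, HX k a = z ∧ ((HX k (a + 1) = x ∧ HX k (a - 1) = y) ∨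
      (HX k (a - 1) = x ∧ HX k (a + 1) = y))) := by decide +kernel
theorem sq_far : ∀ k a o, dN o (SQ k a) = dN o (SQ k (a + 1)) + 1 →
    dN o (SQ k a) = dN o (SQ k (a - 1)) + 1 →
    dN o (SQ k (a + 1)) = dN o (SQ k (a + 2)) + dN (SQ k (a + 2)) (SQ k (a + 1)) ∧
    dN o (SQ k (a - 1)) = dN o (SQ k (a + 2)) + dN (SQ k (a + 2)) (SQ k (a - 1)) := by decide +kernel
theorem hx_far : ∀ k a o, dN o (HX k a) = dN o (HX k (a + 1)) + 1 →
    dN o (HX k a) = dN o (HX k (a - 1)) + 1 →
    dN o (HX k (a + 1)) = dN o (HX k (a + 3)) + dN (HX k (a + 3)) (HX k (a + 1)) ∧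
    dN o (HX k (a - 1)) = dN o (HX k (a + 3)) + dN (HX k (a + 3)) (HX k (a - 1)) := by decide +kernel

/-- The vertex set of the faces. -/
def FS (k : Fin 18) : Finset (Fin 32) :=
  if h : k.val < 6 then Finset.univ.image (SQ ⟨k.val, h⟩)
  else Finset.univ.image (HX ⟨k.val - 6, by omega⟩)

theorem fs_inter : ∀ k l, k ≠ l → (FS k ∩ FS l).card ≤ 2 := by decide +kernel

theorem e_cover : ∀ x y, dN x y = 1 → ∃ j, (Ea j = x ∧ Eb j = y) ∨ (Ea j = y ∧ Eb j = x) := by
  decide +kernel
theorem e_adj : ∀ j, dN (Ea j) (Eb j) = 1 := by decide +kernel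
theorem p_lt : ∀ j, Pa j < j.val ∨ (Pa j = j.val ∧ Ra j = j.val) := by decide +kernel
theorem p_root : ∀ j i : Fin 48, i.val = Pa j → Ra i = Ra j := by decide +kernel
theorem p_opp : ∀ j i : Fin 48, i.val = Pa j → i = j ∨
    (∃ k a, ((SQ k a = Ea j ∧ SQ k (a + 1) = Eb j) ∨ (SQ k a = Eb j ∧ SQ k (a + 1) = Ea j)) ∧
      ((SQ k (a + 2) = Ea i ∧ SQ k (a + 2 + 1) = Eb i) ∨
        (SQ k (a + 2) = Eb i ∧ SQ k (a + 2 + 1) = Ea i))) ∨
    (∃ k a, ((HX k a = Ea j ∧ HX k (a + 1) = Eb j) ∨ (HX k a = Eb j ∧ HX k (a + 1) = Ea j)) ∧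
      ((HX k (a + 3) = Ea i ∧ HX k (a + 3 + 1) = Eb i) ∨
        (HX k (a + 3) = Eb i ∧ HX k (a + 3 + 1) = Ea i))) := by decide +kernel
theorem r_lt : ∀ j, Ra j < 48 := by decide +kernel
theorem r_code : ∀ i j : Fin 48, cd (Ea i) ^^^ cd (Eb i) = cd (Ea j) ^^^ cd (Eb j) → Ra i = Ra j := by
  decide +kernel
theorem code_pow : ∀ x y, dN x y = 1 → ∃ m : Fin 7, cd x ^^^ cd y = 2 ^ m.val := by decide +kernel
theorem trans_wit : ∀ m n : Fin 7, m ≠ n →
    (∃ k a, (cd (SQ k a) ^^^ cd (SQ k (a + 1)) = 2 ^ m.val ∧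
      cd (SQ k (a + 1)) ^^^ cd (SQ k (a + 2)) = 2 ^ n.val) ∨
      (cd (SQ k a) ^^^ cd (SQ k (a + 1)) = 2 ^ n.val ∧
      cd (SQ k (a + 1)) ^^^ cd (SQ k (a + 2)) = 2 ^ m.val)) ∨
    (∃ k a, (cd (HX k a) ^^^ cd (HX k (a + 1)) = 2 ^ m.val ∧
      cd (HX k (a + 1)) ^^^ cd (HX k (a + 2)) = 2 ^ n.val) ∨
      (cd (HX k a) ^^^ cd (HX k (a + 1)) = 2 ^ n.val ∧
      cd (HX k (a + 1)) ^^^ cd (HX k (a + 2)) = 2 ^ m.val)) := by decide +kernel

end Pool.Agent.X50.MM
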