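import Mathlib
import Pool.Agent.X50.MM.Def
import Pool.Agent.X50.MM.Tab
import Pool.Agent.X50.MM.Emb

namespace Pool.Agent.X50.MM

theorem len_ge {x z : Fin 32} (p : X7.Walk x z) : dN x z ≤ p.length := by
  induction p with
  | nil => rw [d_self]; exact Nat.zero_le _
  | @cons u v w h p ih =>
    rw [SimpleGraph.Walk.length_cons]
    rcases d_par u v h w with h1 | h1 <;> omega

theorem exists_walk : ∀ (n : ℕ) (x z : Fin 32), dN x z = n → ∃ p : X7.Walk x z, p.length = n := by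
  intro n
  induction n with
  | zero =>
    intro x z h
    obtain rfl := d_zero x z h
    exact ⟨SimpleGraph.Walk.nil, rfl⟩
  | succ n ih =>
    intro x z h
    obtain ⟨y, h1, h2⟩ := d_step x z (by omega)
    obtain ⟨p, hp⟩ := ih y z (by omega)
    exact ⟨SimpleGraph.Walk.cons (show X7.Adj x y from h1) p, by rw [SimpleGraph.Walk.length_cons, hp]⟩

theorem reach (x z : Fin 32) : X7.Reachable x z := by
  obtain ⟨p, -⟩ := exists_walk _ x z rfl
  exact ⟨p⟩

theorem dist_eq (x z : Fin 32) : X7.dist x z = dN x z := by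
  apply le_antisymm
  · obtain ⟨p, hp⟩ := exists_walk _ x z rfl
    rw [← hp]
    exact SimpleGraph.dist_le p
  · obtain ⟨p, hp⟩ := (reach x z).exists_walk_length_eq_dist
    rw [← hp]
    exact len_ge p

theorem mem_ivl {x y z : Fin 32} : z ∈ Ivl X7 x y ↔ dN x y = dN x z + dN z y := by
  unfold Ivl
  rw [Set.mem_setOf_eq, dist_eq, dist_eq, dist_eq]
  exact ⟨fun h => h.2.2, fun h => ⟨reach _ _, reach _ _, h⟩⟩

theorem sq_cc (k : Fin 6) : ConvCyc X7 2 (SQ k) := by
  refine ⟨le_refl _, sq_inj k, sq_adj k, ?_⟩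
  rintro _ ⟨a, rfl⟩ _ ⟨b, rfl⟩ z hz
  rw [mem_ivl] at hz
  exact sq_conv k a b z hz

theorem hx_cc (k : Fin 12) : ConvCyc X7 3 (HX k) := by
  refine ⟨by norm_num, hx_inj k, hx_adj k, ?_⟩
  rintro _ ⟨a, rfl⟩ _ ⟨b, rfl⟩ z hz
  rw [mem_ivl] at hz
  exact hx_conv k a b z hz

section gen
variable {V : Type*} {X : SimpleGraph V}

theorem ConvCyc.rot {n : ℕ} {c : ZMod (2 * n) → V} (h : ConvCyc X n c) (a : ZMod (2 * n)) :
    ConvCyc X n (fun i => c (a + i)) := by
  obtain ⟨h1, h2, h3, h4⟩ := h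
  refine ⟨h1, fun i j hij => add_left_cancel (h2 hij), fun i j => ?_, ?_⟩
  · rw [h3]
    constructor
    · rintro (h | h)
      · left; linear_combination h
      · right; linear_combination h
    · rintro (h | h)
      · left; linear_combination h
      · right; linear_combination h
  · have : Set.range (fun i => c (a + i)) = Set.range c := by
      ext v
      constructor
      · rintro ⟨i, rfl⟩; exact ⟨_, rfl⟩
      · rintro ⟨i, rfl⟩; exact ⟨i - a, by simp⟩
    rw [this]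
    exact h4

theorem ConvCyc.refl {n : ℕ} {c : ZMod (2 * n) → V} (h : ConvCyc X n c) (a : ZMod (2 * n)) :
    ConvCyc X n (fun i => c (a - i)) := by
  obtain ⟨h1, h2, h3, h4⟩ := h
  refine ⟨h1, fun i j hij => ?_, fun i j => ?_, ?_⟩
  · have := h2 hij
    linear_combination -this
  · rw [h3]
    constructor
    · rintro (h | h)
      · right; linear_combination h
      · left; linear_combination h
    · rintro (h | h)
      · right; linear_combination h
      · left; linear_combination h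
  · have : Set.range (fun i => c (a - i)) = Set.range c := by
      ext v
      constructor
      · rintro ⟨i, rfl⟩; exact ⟨_, rfl⟩
      · rintro ⟨i, rfl⟩; exact ⟨a - i, by simp⟩
    rw [this]
    exact h4

theorem two_ne {m : ℕ} (hm : 2 ≤ m) : (2 : ZMod (2 * m)) ≠ 0 := by
  intro h
  have h2 : ((2 : ℕ) : ZMod (2 * m)) = 0 := by exact_mod_cast h
  rw [ZMod.natCast_eq_zero_iff] at h2
  have := Nat.le_of_dvd (by norm_num) h2
  omega

theorem range_sub {n m : ℕ} {c : ZMod (2 * n) → V} {c' : ZMod (2 * m) → V} (hc : ConvCyc X n c)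
    (hc' : ConvCyc X m c') (h : Set.range c' ⊆ Set.range c) : Set.range c ⊆ Set.range c' := by
  haveI : NeZero (2 * n) := ⟨by have := hc.1; omega⟩
  obtain ⟨i0, h0⟩ := h ⟨0, rfl⟩
  have key : ∀ k : ℕ, c (i0 + k) ∈ Set.range c' := by
    intro k
    induction k with
    | zero => rw [Nat.cast_zero, add_zero, h0]; exact ⟨0, rfl⟩
    | succ k ih =>
      obtain ⟨b, hb⟩ := ih
      obtain ⟨p, hp⟩ := h ⟨b + 1, rfl⟩
      obtain ⟨q, hq⟩ := h ⟨b - 1, rfl⟩
      have a1 : X.Adj (c (i0 + k)) (c p) := by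
        rw [hp, ← hb]
        exact (hc'.2.2.1 _ _).mpr (Or.inl rfl)
      have a2 : X.Adj (c (i0 + k)) (c q) := by
        rw [hq, ← hb]
        exact (hc'.2.2.1 _ _).mpr (Or.inr (by ring))
      have hpq : p ≠ q := by
        intro hh
        rw [hh, hq] at hp
        have h3 := hc'.2.1 hp
        apply two_ne hc'.1
        linear_combination -h3
      rw [hc.2.2.1] at a1 a2
      rw [Nat.cast_succ, ← add_assoc]
      rcases a1 with a1 | a1
      · rw [← a1, hp]; exact ⟨_, rfl⟩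
      · rcases a2 with a2 | a2
        · rw [← a2, hq]; exact ⟨_, rfl⟩
        · exact absurd (add_right_cancel (a1.symm.trans a2)) hpq
  rintro _ ⟨i, rfl⟩
  have h1 := key (i - i0).val
  rwa [ZMod.natCast_zmod_val, add_sub_cancel] at h1

end gen

theorem fin_sq {n : ℕ} {c : ZMod (2 * n) → Fin 32} (hc : ConvCyc X7 n c) {k : Fin 6}
    {a : ZMod (2 * 2)} {o : Fin 32} (ho : o ∈ Set.range c) (h0 : SQ k a ∈ Set.range c)
    (h1 : SQ k (a + 1) ∈ Set.range c)
    (e1 : dN o (SQ k a) = dN o (SQ k (a + 1)) + 1) (e2 : dN o (SQ k a) = dN o (SQ k (a - 1)) + 1) :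
    Set.range c = Set.range (SQ k) := by
  obtain ⟨f1, -⟩ := sq_far k a o e1 e2
  have hw : SQ k (a + 2) ∈ Set.range c := hc.2.2.2 _ ho _ h1 (mem_ivl.mpr f1)
  have hs : Set.range (SQ k) ⊆ Set.range c := by
    rintro _ ⟨b, rfl⟩
    exact hc.2.2.2 _ h0 _ hw (mem_ivl.mpr (sq_opp k a b))
  exact Set.Subset.antisymm (range_sub hc (sq_cc k) hs) hs

theorem fin_hx {n : ℕ} {c : ZMod (2 * n) → Fin 32} (hc : ConvCyc X7 n c) {k : Fin 12}
    {a : ZMod (2 * 3)} {o : Fin 32} (ho : o ∈ Set.range c) (h0 : HX k a ∈ Set.range c)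
    (h1 : HX k (a + 1) ∈ Set.range c)
    (e1 : dN o (HX k a) = dN o (HX k (a + 1)) + 1) (e2 : dN o (HX k a) = dN o (HX k (a - 1)) + 1) :
    Set.range c = Set.range (HX k) := by
  obtain ⟨f1, -⟩ := hx_far k a o e1 e2
  have hw : HX k (a + 3) ∈ Set.range c := hc.2.2.2 _ ho _ h1 (mem_ivl.mpr f1)
  have hs : Set.range (HX k) ⊆ Set.range c := by
    rintro _ ⟨b, rfl⟩
    exact hc.2.2.2 _ h0 _ hw (mem_ivl.mpr (hx_opp k a b))
  exact Set.Subset.antisymm (range_sub hc (hx_cc k) hs) hs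

theorem fs_sq (k : Fin 6) : ((FS ⟨k.val, by omega⟩ : Finset (Fin 32)) : Set (Fin 32)) =
    Set.range (SQ k) := by
  unfold FS
  rw [dif_pos k.2, Finset.coe_image, Finset.coe_univ, Set.image_univ]

theorem fs_hx (k : Fin 12) : ((FS ⟨k.val + 6, by omega⟩ : Finset (Fin 32)) : Set (Fin 32)) =
    Set.range (HX k) := by
  unfold FS
  rw [dif_neg (by simp), Finset.coe_image, Finset.coe_univ, Set.image_univ]
  simp

theorem faceOf {n : ℕ} {c : ZMod (2 * n) → Fin 32} (hc : ConvCyc X7 n c) :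
    ∃ k : Fin 18, Set.range c = (FS k : Set (Fin 32)) := by
  haveI : NeZero (2 * n) := ⟨by have := hc.1; omega⟩
  obtain ⟨⟨i, j⟩, -, hmax⟩ := Finset.exists_max_image
    (Finset.univ : Finset (ZMod (2 * n) × ZMod (2 * n))) (fun p => dN (c p.1) (c p.2))
    ⟨(0, 0), Finset.mem_univ _⟩
  have hx : dN (c i) (c (i + 1)) = 1 := (hc.2.2.1 i (i + 1)).mpr (Or.inl rfl)
  have hy : dN (c i) (c (i - 1)) = 1 := (hc.2.2.1 i (i - 1)).mpr (Or.inr (by ring))
  have hxy : c (i + 1) ≠ c (i - 1) := by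
    intro hh
    have h3 := hc.2.1 hh
    apply two_ne hc.1
    linear_combination h3
  have m1 := hmax (i + 1, j) (Finset.mem_univ _)
  have m2 := hmax (i - 1, j) (Finset.mem_univ _)
  simp only at m1 m2
  have e1 : dN (c j) (c i) = dN (c j) (c (i + 1)) + 1 := by
    rw [d_symm (c j), d_symm (c j)]
    rcases d_par _ _ hx (c j) with h | h <;> omega
  have e2 : dN (c j) (c i) = dN (c j) (c (i - 1)) + 1 := by
    rw [d_symm (c j), d_symm (c j)]
    rcases d_par _ _ hy (c j) with h | h <;> omega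
  rcases faces (c i) (c (i + 1)) hx (c (i - 1)) hy hxy with ⟨k, a, h0, h⟩ | ⟨k, a, h0, h⟩
  · refine ⟨⟨k.val, by omega⟩, ?_⟩
    rw [fs_sq]
    rcases h with ⟨h1, h2⟩ | ⟨h2, h1⟩
    · refine fin_sq hc (o := c j) ⟨j, rfl⟩ (a := a) ?_ ?_ ?_ ?_
      · rw [h0]; exact ⟨_, rfl⟩
      · rw [h1]; exact ⟨_, rfl⟩
      · rw [h0, h1]; exact e1
      · rw [h0, h2]; exact e2
    · refine fin_sq hc (o := c j) ⟨j, rfl⟩ (a := a) ?_ ?_ ?_ ?_
      · rw [h0]; exact ⟨_, rfl⟩
      · rw [h1]; exact ⟨_, rfl⟩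
      · rw [h0, h1]; exact e2
      · rw [h0, h2]; exact e1
  · refine ⟨⟨k.val + 6, by omega⟩, ?_⟩
    rw [fs_hx]
    rcases h with ⟨h1, h2⟩ | ⟨h2, h1⟩
    · refine fin_hx hc (o := c j) ⟨j, rfl⟩ (a := a) ?_ ?_ ?_ ?_
      · rw [h0]; exact ⟨_, rfl⟩
      · rw [h1]; exact ⟨_, rfl⟩
      · rw [h0, h1]; exact e1
      · rw [h0, h2]; exact e2
    · refine fin_hx hc (o := c j) ⟨j, rfl⟩ (a := a) ?_ ?_ ?_ ?_
      · rw [h0]; exact ⟨_, rfl⟩
      · rw [h1]; exact ⟨_, rfl⟩
      · rw [h0, h1]; exact e2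
      · rw [h0, h2]; exact e1

theorem sub2 : ∀ a : ZMod (2 * 2), a - 2 = a + 2 := by decide
theorem sub3 : ∀ a : ZMod (2 * 3), a - 3 = a + 3 := by decide

theorem X7_conn : X7.Connected := by
  haveI : Nonempty (Fin 32) := ⟨0⟩
  exact ⟨fun x y => reach x y⟩

theorem X7_cyc (o x y z : Fin 32) (h1 : X7.dist o x = X7.dist o y)
    (h2 : X7.dist o z = X7.dist o x + 1) (hx : X7.Adj x z) (hy : X7.Adj y z) (hxy : x ≠ y) :
    ∃ (n : ℕ) (c : ZMod (2 * n) → Fin 32), ConvCyc X7 n c ∧ c 0 = z ∧ c 1 = x ∧ c (-1) = y ∧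
      c n ∈ Ivl X7 o x ∩ Ivl X7 o y := by
  rw [dist_eq, dist_eq] at h1 h2
  have h3 : dN o z = dN o y + 1 := by omega
  have c2 : (((2 : ℕ) : ZMod (2 * 2))) = 2 := rfl
  have c3 : (((3 : ℕ) : ZMod (2 * 3))) = 3 := rfl
  rcases faces z x hx.symm y hy.symm hxy with ⟨k, a, h0, h⟩ | ⟨k, a, h0, h⟩
  · rcases h with ⟨k1, k2⟩ | ⟨k2, k1⟩
    · refine ⟨2, fun i => SQ k (a + i), (sq_cc k).rot a, ?_, ?_, ?_, ?_⟩
      · simp only [add_zero]; exact h0
      · exact k1
      · rw [← k2]; ring_nf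
      · obtain ⟨f1, f2⟩ := sq_far k a o (by rw [h0, k1]; exact h2) (by rw [h0, k2]; exact h3)
        rw [k1] at f1
        rw [k2] at f2
        rw [c2]
        exact ⟨mem_ivl.mpr f1, mem_ivl.mpr f2⟩
    · refine ⟨2, fun i => SQ k (a - i), (sq_cc k).refl a, ?_, ?_, ?_, ?_⟩
      · simp only [sub_zero]; exact h0
      · exact k2
      · rw [← k1]; ring_nf
      · obtain ⟨f1, f2⟩ := sq_far k a o (by rw [h0, k1]; exact h3) (by rw [h0, k2]; exact h2)
        rw [k1] at f1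
        rw [k2] at f2
        rw [c2]
        show SQ k (a - 2) ∈ _
        rw [sub2]
        exact ⟨mem_ivl.mpr f2, mem_ivl.mpr f1⟩
  · rcases h with ⟨k1, k2⟩ | ⟨k2, k1⟩
    · refine ⟨3, fun i => HX k (a + i), (hx_cc k).rot a, ?_, ?_, ?_, ?_⟩
      · simp only [add_zero]; exact h0
      · exact k1
      · rw [← k2]; ring_nf
      · obtain ⟨f1, f2⟩ := hx_far k a o (by rw [h0, k1]; exact h2) (by rw [h0, k2]; exact h3)
        rw [k1] at f1
        rw [k2] at f2
        rw [c3]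
        exact ⟨mem_ivl.mpr f1, mem_ivl.mpr f2⟩
    · refine ⟨3, fun i => HX k (a - i), (hx_cc k).refl a, ?_, ?_, ?_, ?_⟩
      · simp only [sub_zero]; exact h0
      · exact k2
      · rw [← k1]; ring_nf
      · obtain ⟨f1, f2⟩ := hx_far k a o (by rw [h0, k1]; exact h3) (by rw [h0, k2]; exact h2)
        rw [k1] at f1
        rw [k2] at f2
        rw [c3]
        show HX k (a - 3) ∈ _
        rw [sub3]
        exact ⟨mem_ivl.mpr f2, mem_ivl.mpr f1⟩

theorem X7_med : Mediangle X7 := by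
  refine ⟨X7_conn, ?_, ?_, X7_cyc, ?_⟩
  · intro o x y h1 h2
    exfalso
    rw [dist_eq, dist_eq, d_symm o, d_symm o] at h1
    rcases d_par x y h2 o with h | h <;> omega
  · intro a b c d hab hac _ hbc _ _
    exfalso
    have h1 : dN a b = 1 := hab
    have h2 : dN a c = 1 := hac
    rcases d_par b c hbc a with h | h
    · rw [d_symm b, d_symm c] at h; omega
    · rw [d_symm b, d_symm c] at h; omega
  · intro n c m c' hc hc' i j i' j' h1 h2 hne
    obtain ⟨k, hk⟩ := faceOf hc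
    obtain ⟨l, hl⟩ := faceOf hc'
    by_cases hkl : k = l
    · rw [hk, hl, hkl]
    · exfalso
      have hcard := fs_inter k l hkl
      have memk : ∀ t, c t ∈ FS k := fun t => by
        have : c t ∈ (FS k : Set (Fin 32)) := by rw [← hk]; exact ⟨t, rfl⟩
        exact this
      have meml : ∀ t, c' t ∈ FS l := fun t => by
        have : c' t ∈ (FS l : Set (Fin 32)) := by rw [← hl]; exact ⟨t, rfl⟩
        exact this
      have pairs : ∀ t t', s(c t, c (t + 1)) = s(c' t', c' (t' + 1)) →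
          ({c t, c (t + 1)} : Finset (Fin 32)) = FS k ∩ FS l := by
        intro t t' h
        have hne' : c t ≠ c (t + 1) := by
          have : X7.Adj (c t) (c (t + 1)) := (hc.2.2.1 t (t + 1)).mpr (Or.inl rfl)
          exact this.ne
        apply Finset.eq_of_subset_of_card_le
        · intro v hv
          rw [Finset.mem_insert, Finset.mem_singleton] at hv
          rw [Finset.mem_inter]
          rw [Sym2.eq_iff] at h
          rcases hv with rfl | rfl
          · refine ⟨memk _, ?_⟩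
            rcases h with h | h
            · rw [h.1]; exact meml _
            · rw [h.1]; exact meml _
          · refine ⟨memk _, ?_⟩
            rcases h with h | h
            · rw [h.2]; exact meml _
            · rw [h.2]; exact meml _
        · rw [Finset.card_pair hne']
          exact hcard
      have p1 := pairs i i' h1
      have p2 := pairs j j' h2
      rw [← p2] at p1
      apply hne
      have q1 : c i ∈ ({c j, c (j + 1)} : Finset (Fin 32)) := by rw [← p1]; simp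
      have q2 : c (i + 1) ∈ ({c j, c (j + 1)} : Finset (Fin 32)) := by rw [← p1]; simp
      have hne' : c i ≠ c (i + 1) := by
        have : X7.Adj (c i) (c (i + 1)) := (hc.2.2.1 i (i + 1)).mpr (Or.inl rfl)
        exact this.ne
      rw [Finset.mem_insert, Finset.mem_singleton] at q1 q2
      rw [Sym2.eq_iff]
      rcases q1 with q1 | q1 <;> rcases q2 with q2 | q2
      · exact absurd (q1.trans q2.symm) hne'
      · exact Or.inl ⟨q1, q2⟩
      · exact Or.inr ⟨q1, q2⟩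
      · exact absurd (q1.trans q2.symm) hne'

theorem sym_of {p q a b : Fin 32} (h : (p = a ∧ q = b) ∨ (p = b ∧ q = a)) : s(p, q) = s(a, b) := by
  rw [Sym2.eq_iff]
  exact h

theorem chain : ∀ (m : ℕ) (j : Fin 48), j.val = m → ∀ i : Fin 48, i.val = Ra j →
    Relation.EqvGen (HRule X7) s(Ea j, Eb j) s(Ea i, Eb i) := by
  intro m
  induction m using Nat.strong_induction_on with
  | _ m ih =>
    intro j hj i hi
    rcases p_lt j with h | ⟨h1, h2⟩
    · have hlt : Pa j < 48 := by omega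
      obtain ⟨i', hi'⟩ : ∃ i' : Fin 48, i'.val = Pa j := ⟨⟨Pa j, hlt⟩, rfl⟩
      have step := ih (Pa j) (by omega) i' hi' i (by rw [hi, p_root j i' hi'])
      refine Relation.EqvGen.trans _ _ _ ?_ step
      rcases p_opp j i' hi' with h1 | ⟨k, a, h1, h2⟩ | ⟨k, a, h1, h2⟩
      · rw [h1]; exact Relation.EqvGen.refl _
      · rw [← sym_of h1, ← sym_of h2]
        exact Relation.EqvGen.rel _ _ (HRule.opp 2 (SQ k) a (sq_cc k))
      · rw [← sym_of h1, ← sym_of h2]
        exact Relation.EqvGen.rel _ _ (HRule.opp 3 (HX k) a (hx_cc k))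
    · have : i = j := Fin.ext (by rw [hi, h2])
      rw [this]
      exact Relation.EqvGen.refl _

theorem same_code {u v u' v' : Fin 32} (h : dN u v = 1) (h' : dN u' v' = 1)
    (hc : cd u ^^^ cd v = cd u' ^^^ cd v') :
    Relation.EqvGen (HRule X7) s(u, v) s(u', v') := by
  obtain ⟨j, hj⟩ := e_cover u v h
  obtain ⟨j', hj'⟩ := e_cover u' v' h'
  have c1 : cd (Ea j) ^^^ cd (Eb j) = cd u ^^^ cd v := by
    rcases hj with ⟨a, b⟩ | ⟨a, b⟩
    · rw [a, b]
    · rw [a, b, Nat.xor_comm]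
  have c2 : cd (Ea j') ^^^ cd (Eb j') = cd u' ^^^ cd v' := by
    rcases hj' with ⟨a, b⟩ | ⟨a, b⟩
    · rw [a, b]
    · rw [a, b, Nat.xor_comm]
  have hr : Ra j = Ra j' := r_code j j' (by rw [c1, c2, hc])
  obtain ⟨i, hi⟩ : ∃ i : Fin 48, i.val = Ra j := ⟨⟨Ra j, r_lt j⟩, rfl⟩
  rw [← sym_of hj, ← sym_of hj']
  exact Relation.EqvGen.trans _ _ _ (chain _ j rfl i hi)
    (Relation.EqvGen.symm _ _ (chain _ j' rfl i (by rw [hi, hr])))

theorem X7_mono : Monolith X7 Set.univ := by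
  refine ⟨fun x => ⟨x, Set.mem_univ _, fun z _ => ?_⟩, ?_⟩
  · rw [mem_ivl, d_self, zero_add]
  · rintro J₁ J₂ ⟨e1, he1, rfl⟩ ⟨e2, he2, rfl⟩ hne - -
    induction e1 using Sym2.ind with
    | _ u v =>
    induction e2 using Sym2.ind with
    | _ u' v' =>
    have h1 : dN u v = 1 := he1
    have h2 : dN u' v' = 1 := he2
    obtain ⟨m, hm⟩ := code_pow u v h1
    obtain ⟨n, hn⟩ := code_pow u' v' h2
    have hmn : m ≠ n := by
      intro hh
      apply hne
      have h3 := same_code h1 h2 (by rw [hm, hn, hh])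
      ext e
      constructor
      · rintro ⟨a, b⟩
        exact ⟨a, Relation.EqvGen.trans _ _ _ (Relation.EqvGen.symm _ _ h3) b⟩
      · rintro ⟨a, b⟩
        exact ⟨a, Relation.EqvGen.trans _ _ _ h3 b⟩
    have mem1 : ∀ a b : Fin 32, dN a b = 1 → cd a ^^^ cd b = 2 ^ m.val →
        s(a, b) ∈ {e' | e' ∈ X7.edgeSet ∧ Relation.EqvGen (HRule X7) s(u, v) e'} :=
      fun a b h h' => ⟨h, same_code h1 h (by rw [hm, h'])⟩
    have mem2 : ∀ a b : Fin 32, dN a b = 1 → cd a ^^^ cd b = 2 ^ n.val →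
        s(a, b) ∈ {e' | e' ∈ X7.edgeSet ∧ Relation.EqvGen (HRule X7) s(u', v') e'} :=
      fun a b h h' => ⟨h, same_code h2 h (by rw [hn, h'])⟩
    rcases trans_wit m n hmn with ⟨k, a, h⟩ | ⟨k, a, h⟩
    · have d1 : dN (SQ k a) (SQ k (a + 1)) = 1 := (sq_adj k _ _).mpr (Or.inl rfl)
      have d2 : dN (SQ k (a + 1)) (SQ k (a + 2)) = 1 :=
        (sq_adj k _ _).mpr (Or.inl (by ring))
      refine ⟨2, SQ k, a, sq_cc k, ?_⟩
      rcases h with ⟨h3, h4⟩ | ⟨h3, h4⟩
      · exact Or.inl ⟨mem1 _ _ d1 h3, mem2 _ _ d2 h4⟩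
      · exact Or.inr ⟨mem2 _ _ d1 h3, mem1 _ _ d2 h4⟩
    · have d1 : dN (HX k a) (HX k (a + 1)) = 1 := (hx_adj k _ _).mpr (Or.inl rfl)
      have d2 : dN (HX k (a + 1)) (HX k (a + 2)) = 1 :=
        (hx_adj k _ _).mpr (Or.inl (by ring))
      refine ⟨3, HX k, a, hx_cc k, ?_⟩
      rcases h with ⟨h3, h4⟩ | ⟨h3, h4⟩
      · exact Or.inl ⟨mem1 _ _ d1 h3, mem2 _ _ d2 h4⟩
      · exact Or.inr ⟨mem2 _ _ d1 h3, mem1 _ _ d2 h4⟩

instance (u z u' : Fin 32) : Decidable (UCN X7 u z u') := by unfold UCN; infer_instance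

theorem X7_not {ι : Type*} {V : ι → Type*} (G : ∀ i, SimpleGraph (V i)) (hG : ∀ i, Factor (G i))
    (S : Set (∀ i, V i)) (hS : IsConvex (cart G) S) :
    IsEmpty (X7.induce Set.univ ≃g (cart G).induce S) := by
  constructor
  intro φ
  have E := emb_of_iso hS (((SimpleGraph.induceUnivIso X7).symm).trans φ)
  refine no_emb E hG (v := 0) (x1 := 1) (x2 := 6) (x3 := 16) (p := 2) (p' := 11) (p'' := 7)
    (q := 3) (q' := 21) (q'' := 17) (r := 8) (r' := 26) (r'' := 18) (w := 4) ?_ ?_ ?_ ?_ ?_ ?_ ?_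
  · constructor <;> decide +kernel
  · constructor <;> decide +kernel
  · constructor <;> decide +kernel
  · decide +kernel
  · decide +kernel
  · decide
  · decide

end Pool.Agent.X50.MM
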